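import Pool.Agent.Helper14.TH7.StD

/-!
# Project TH7, module Sur: solving the inhomogeneous relation
-/

set_option autoImplicit false

namespace Pool.Agent.Helper53.TH7

open Pool.Agent.Helper14.TH7 Pool.Agent.Helper84.S7
open Pool.Agent.Helper4.S7 (pj S7Pj)

private theorem decomp_Sur (hLow0 : S7Low0) (hBb : S7Bb) (r s : ℕ) (e : ℤ) (E : Fn7 (7 ^ r) (7 ^ s))
    (he : e < 7 ^ r + 7 ^ s - 2) (hE : E ∈ Wd7 e) :
    ∃ U V : Fn7 (7 ^ r) (7 ^ s), U ∈ Wd7 (e + 1) ∧ V ∈ Wd7 (e + 1) ∧ dX U + dY V = E := by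
  obtain ⟨_, _, _, _, hmono, _⟩ := hLow0 r s
  obtain ⟨h1, h2, h3, _, _, h6⟩ := hBb r s
  set c : ℕ → ℕ → ZMod 7 := fun i j =>
    ((dX ^ i * dY ^ j : Module.End (ZMod 7) (Fn7 (7 ^ r) (7 ^ s))) E) 0 0 with hc
  have hc0 : ∀ i j : ℕ, e < (i : ℤ) + j → c i j = 0 := by
    intro i j hij
    have : ((dX ^ i * dY ^ j : Module.End (ZMod 7) (Fn7 (7 ^ r) (7 ^ s))) E) = 0 := hE i j hij
    rw [hc]
    simp only [this]
    rfl
  have hj : ∀ i j : ℕ, i < 7 ^ r → (i : ℤ) + j ≤ e → ¬ (i + 1 < 7 ^ r) → j + 1 < 7 ^ s := by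
    intro i j hi hij hi1
    have h7 : i + 1 = 7 ^ r := by omega
    have h8 : (i : ℤ) + 1 = 7 ^ r := by exact_mod_cast h7
    have h9 : (j : ℤ) + 1 < 7 ^ s := by linarith
    exact_mod_cast h9
  refine ⟨∑ i ∈ Finset.range (7 ^ r), ∑ j ∈ Finset.range (7 ^ s),
      (if i + 1 < 7 ^ r then c i j • bb7 (i + 1) j else 0),
    ∑ i ∈ Finset.range (7 ^ r), ∑ j ∈ Finset.range (7 ^ s),
      (if i + 1 < 7 ^ r then 0 else c i j • bb7 i (j + 1)), ?_, ?_, ?_⟩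
  · refine Submodule.sum_mem _ fun i hi => Submodule.sum_mem _ fun j hj => ?_
    rw [Finset.mem_range] at hi hj
    split_ifs with h
    · by_cases hij : (i : ℤ) + j ≤ e
      · refine Submodule.smul_mem _ _ (hmono _ _ ?_ (h1 (i + 1) j h hj))
        push_cast
        linarith
      · rw [hc0 i j (not_le.1 hij), zero_smul]
        exact Submodule.zero_mem _
    · exact Submodule.zero_mem _
  · refine Submodule.sum_mem _ fun i hi => Submodule.sum_mem _ fun j _ => ?_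
    rw [Finset.mem_range] at hi
    split_ifs with h
    · exact Submodule.zero_mem _
    · by_cases hij : (i : ℤ) + j ≤ e
      · refine Submodule.smul_mem _ _ (hmono _ _ ?_ (h1 i (j + 1) hi (hj i j hi hij h)))
        push_cast
        linarith
      · rw [hc0 i j (not_le.1 hij), zero_smul]
        exact Submodule.zero_mem _
  · refine Eq.trans ?_ (h6 E).symm
    rw [map_sum, map_sum, ← Finset.sum_add_distrib]
    refine Finset.sum_congr rfl fun i hi => ?_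
    rw [map_sum, map_sum, ← Finset.sum_add_distrib]
    refine Finset.sum_congr rfl fun j hj' => ?_
    rw [Finset.mem_range] at hi hj'
    have hcc : ((dX ^ i * dY ^ j : Module.End (ZMod 7) (Fn7 (7 ^ r) (7 ^ s))) E) 0 0 = c i j := rfl
    rw [hcc]
    by_cases h : i + 1 < 7 ^ r
    · rw [if_pos h, if_pos h, map_smul, map_zero, add_zero, h2 i j h hj']
    · rw [if_neg h, if_neg h, map_smul, map_zero, zero_add]
      by_cases hij : (i : ℤ) + j ≤ e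
      · rw [h3 i j hi (hj i j hi hij h)]
      · rw [hc0 i j (not_le.1 hij), zero_smul, zero_smul]

/-- The relation with operators. -/
private theorem DfH_op (r s : ℕ) (F : Fin 3 → Fn7 (7 ^ r) (7 ^ s)) :
    (DfH F : Fn7 (7 ^ r) (7 ^ s)) = F 1 - op7 4 (-3) 2 (-10) (F 1) +
      (op7 4 (-3) 2 (-10) (F 0) - op7 4 1 2 4 (F 0)) - (F 2 - op7 6 (-1) 2 (-2) (F 2)) := rfl

/-- The algebra of one step. -/
private theorem alg_Sur {M : Type} [AddCommGroup M] [Module (ZMod 7) M] (W : Submodule (ZMod 7) M)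
    (E E0 E3 D XP XQ YQ : M)
    (h1 : D + (-2 : ZMod 7) • XQ + (4 : ZMod 7) • ((-2 : ZMod 7) • YQ) + -XP ∈ W)
    (h2 : E0 + E3 - (XP + YQ) ∈ W) :
    (E - D) - (E - E0 - E3 - (2 : ZMod 7) • XQ) ∈ W := by
  have h6 : (8 - 1 : ZMod 7) = 0 := by decide
  have h8 : (E - D) - (E - E0 - E3 - (2 : ZMod 7) • XQ) =
      -(D + (-2 : ZMod 7) • XQ + (4 : ZMod 7) • ((-2 : ZMod 7) • YQ) + -XP) +
        (E0 + E3 - (XP + YQ)) - (8 - 1 : ZMod 7) • YQ := by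
    module
  rw [h8, h6, zero_smul, sub_zero]
  exact Submodule.add_mem _ (Submodule.neg_mem _ h1) h2

/-- One step of the induction. -/
private theorem step_Sur (hLow0 : S7Low0) (hPj : S7Pj) (hBb : S7Bb) (hSta : TSta) (hLwd : TLwd)
    (r s : ℕ) (e : ℤ) (E : Fn7 (7 ^ r) (7 ^ s)) (he : e < 7 ^ r + 7 ^ s - 2) (hE : E ∈ Wd7 e) :
    ∃ F : Fin 3 → Fn7 (7 ^ r) (7 ^ s), (∀ f, F f ∈ Wd7 (e + 1)) ∧
      E - (DfH F : Fn7 (7 ^ r) (7 ^ s)) ∈
        (Wd7 (e - 1) : Submodule (ZMod 7) (Fn7 (7 ^ r) (7 ^ s))) := by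
  obtain ⟨_, _, _, _, hmono, _, hdX, hdY, _⟩ := hLow0 r s
  obtain ⟨hp0, _, hp6, _, hpp, hpd, _⟩ := hPj r s
  obtain ⟨P, Q, hP, hQ, hPQ⟩ := decomp_Sur hLow0 hBb r s e E he hE
  -- projections preserve degrees
  have hp : ∀ (c : ℕ) (d : ℤ) (F : Fn7 (7 ^ r) (7 ^ s)), F ∈ Wd7 d → pj c F ∈ Wd7 d := by
    intro c d F hF
    have := hp0 c d F hF
    rwa [sub_zero] at this
  have hx : ∀ F : Fn7 (7 ^ r) (7 ^ s), F ∈ Wd7 (e + 1) → dX F ∈ Wd7 e := by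
    intro F hF
    have := hdX _ F hF
    rwa [add_sub_cancel_right] at this
  have h8 : (pj 8 : Module.End (ZMod 7) (Fn7 (7 ^ r) (7 ^ s))) = pj 2 := hp6 2
  -- commutation of projections and differences
  have hcx : ∀ (c : ℕ) (F : Fn7 (7 ^ r) (7 ^ s)), F ∈ Wd7 (e + 1) →
      pj c (dX F) - dX (pj (c + 1) F) ∈
        (Wd7 (e - 1) : Submodule (ZMod 7) (Fn7 (7 ^ r) (7 ^ s))) := by
    intro c F hF
    exact hmono _ _ (by linarith) ((hpd c).1 _ F hF)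
  have hcy : ∀ (c : ℕ) (F : Fn7 (7 ^ r) (7 ^ s)), F ∈ Wd7 (e + 1) →
      pj c (dY F) - dY (pj (c + 5) F) ∈
        (Wd7 (e - 1) : Submodule (ZMod 7) (Fn7 (7 ^ r) (7 ^ s))) := by
    intro c F hF
    exact hmono _ _ (by linarith) ((hpd c).2 _ F hF)
  -- orthogonality
  have hor : ∀ (c c' : ℕ) (d : ℤ) (F : Fn7 (7 ^ r) (7 ^ s)), c < 6 → c' < 6 → c ≠ c' → F ∈ Wd7 d →
      pj c (pj c' F) ∈ (Wd7 (d - 9) : Submodule (ZMod 7) (Fn7 (7 ^ r) (7 ^ s))) := by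
    intro c c' d F hc hc' hne hF
    have h9 := hpp c c' hc hc' _ F hF
    rw [if_neg hne, sub_zero] at h9
    exact h9
  have hid : ∀ (c : ℕ) (d : ℤ) (F : Fn7 (7 ^ r) (7 ^ s)), c < 6 → F ∈ Wd7 d →
      pj c (pj c F) - pj c F ∈ (Wd7 (d - 9) : Submodule (ZMod 7) (Fn7 (7 ^ r) (7 ^ s))) := by
    intro c d F hc hF
    have h9 := hpp c c hc hc _ F hF
    rw [if_pos rfl] at h9
    exact h9
  -- the functions
  obtain ⟨P', hP'⟩ : ∃ P' : Fn7 (7 ^ r) (7 ^ s), P' = pj 1 P + pj 4 P := ⟨_, rfl⟩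
  obtain ⟨Q', hQ'⟩ : ∃ Q' : Fn7 (7 ^ r) (7 ^ s), Q' = pj 5 Q + pj 2 Q := ⟨_, rfl⟩
  have hP'm : P' ∈ Wd7 (e + 1) := by
    rw [hP']; exact Submodule.add_mem _ (hp 1 _ _ hP) (hp 4 _ _ hP)
  have hQ'm : Q' ∈ Wd7 (e + 1) := by
    rw [hQ']; exact Submodule.add_mem _ (hp 5 _ _ hQ) (hp 2 _ _ hQ)
  -- the relation
  obtain ⟨D, hD⟩ : ∃ D : Fn7 (7 ^ r) (7 ^ s), D = (-2 : ZMod 7) • Q' -
      op7 4 (-3) 2 (-10) ((-2 : ZMod 7) • Q') +
      (op7 4 (-3) 2 (-10) (-P') - op7 4 1 2 4 (-P')) := ⟨_, rfl⟩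
  have g1 : D + (-2 : ZMod 7) • dX Q' + (4 : ZMod 7) • ((-2 : ZMod 7) • dY Q') + -dX P' ∈
      (Wd7 (e - 1) : Submodule (ZMod 7) (Fn7 (7 ^ r) (7 ^ s))) := by
    have h9 := hLwd r s (e + 1) ![-P', (-2 : ZMod 7) • Q', 0] (by
      intro f
      fin_cases f
      · exact Submodule.neg_mem _ hP'm
      · exact Submodule.smul_mem _ _ hQ'm
      · exact Submodule.zero_mem _)
    have h10 : (DfH ![-P', (-2 : ZMod 7) • Q', 0] : Fn7 (7 ^ r) (7 ^ s)) = D := by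
      rw [DfH_op]
      have e0 : (![-P', (-2 : ZMod 7) • Q', 0] : Fin 3 → Fn7 (7 ^ r) (7 ^ s)) 0 = -P' := rfl
      have e1 : (![-P', (-2 : ZMod 7) • Q', 0] : Fin 3 → Fn7 (7 ^ r) (7 ^ s)) 1 =
        (-2 : ZMod 7) • Q' := rfl
      have e2 : (![-P', (-2 : ZMod 7) • Q', 0] : Fin 3 → Fn7 (7 ^ r) (7 ^ s)) 2 = 0 := rfl
      rw [e0, e1, e2, hD, map_zero (op7 6 (-1) 2 (-2)), sub_zero, sub_zero]
    have e0 : (![-P', (-2 : ZMod 7) • Q', 0] : Fin 3 → Fn7 (7 ^ r) (7 ^ s)) 0 = -P' := rfl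
    have e1 : (![-P', (-2 : ZMod 7) • Q', 0] : Fin 3 → Fn7 (7 ^ r) (7 ^ s)) 1 =
      (-2 : ZMod 7) • Q' := rfl
    have e2 : (![-P', (-2 : ZMod 7) • Q', 0] : Fin 3 → Fn7 (7 ^ r) (7 ^ s)) 2 = 0 := rfl
    rw [h10, e0, e1, e2, map_zero dX, map_zero dY, smul_zero, add_zero, add_zero, add_zero,
      map_zero (oW 4), sub_zero, map_smul, map_smul, map_neg] at h9
    have h11 : e + 1 - 2 = e - 1 := by ring
    rw [h11] at h9
    exact h9
  -- `dY Q'` has the classes 0 and 3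
  have g0 : dY Q' - (pj 0 (dY Q) + pj 3 (dY Q)) ∈
      (Wd7 (e - 1) : Submodule (ZMod 7) (Fn7 (7 ^ r) (7 ^ s))) := by
    have h9 := hcy 0 Q hQ
    have h10 := hcy 3 Q hQ
    have h11 : (3 + 5 : ℕ) = 8 := rfl
    rw [h11, h8] at h10
    have h12 : dY Q' - (pj 0 (dY Q) + pj 3 (dY Q)) =
        -(pj 0 (dY Q) - dY (pj (0 + 5) Q)) - (pj 3 (dY Q) - dY (pj 2 Q)) := by
      rw [hQ', map_add dY]
      abel
    rw [h12]
    exact Submodule.sub_mem _ (Submodule.neg_mem _ h9) h10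
  have g5 : pj 0 E + pj 3 E - (dX P' + dY Q') ∈
      (Wd7 (e - 1) : Submodule (ZMod 7) (Fn7 (7 ^ r) (7 ^ s))) := by
    have h9 := hcx 0 P hP
    have h10 := hcx 3 P hP
    have h12 : pj 0 E + pj 3 E - (dX P' + dY Q') =
        (pj 0 (dX P) - dX (pj (0 + 1) P)) + (pj 3 (dX P) - dX (pj (3 + 1) P)) -
        (dY Q' - (pj 0 (dY Q) + pj 3 (dY Q))) := by
      rw [← hPQ, hP', map_add (pj 0), map_add (pj 3), map_add dX]
      abel
    rw [h12]
    exact Submodule.sub_mem _ (Submodule.add_mem _ h9 h10) g0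
  -- the error
  have hR := alg_Sur (Wd7 (e - 1) : Submodule (ZMod 7) (Fn7 (7 ^ r) (7 ^ s))) E (pj 0 E) (pj 3 E)
    D (dX P') (dX Q') (dY Q') g1 g5
  obtain ⟨R, hRdef⟩ : ∃ R : Fn7 (7 ^ r) (7 ^ s), R = E - D := ⟨_, rfl⟩
  rw [← hRdef] at hR
  -- the error has no classes 0 and 3
  have hcl : ∀ c : ℕ, (c = 0 ∨ c = 3) → pj c (dX Q') ∈
      (Wd7 (e - 1) : Submodule (ZMod 7) (Fn7 (7 ^ r) (7 ^ s))) := by
    intro c hc
    have h10 := hcx c Q' hQ'm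
    have h11 : pj (c + 1) Q' ∈ (Wd7 (e - 1) : Submodule (ZMod 7) (Fn7 (7 ^ r) (7 ^ s))) := by
      rw [hQ', map_add (pj (c + 1))]
      rcases hc with rfl | rfl
      · exact Submodule.add_mem _
          (hmono _ _ (by linarith) (hor 1 5 _ _ (by norm_num) (by norm_num) (by norm_num) hQ))
          (hmono _ _ (by linarith) (hor 1 2 _ _ (by norm_num) (by norm_num) (by norm_num) hQ))
      · exact Submodule.add_mem _
          (hmono _ _ (by linarith) (hor 4 5 _ _ (by norm_num) (by norm_num) (by norm_num) hQ))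
          (hmono _ _ (by linarith) (hor 4 2 _ _ (by norm_num) (by norm_num) (by norm_num) hQ))
    have h12 : dX (pj (c + 1) Q') ∈
        (Wd7 (e - 1) : Submodule (ZMod 7) (Fn7 (7 ^ r) (7 ^ s))) :=
      hmono _ _ (by linarith) (hdX _ _ h11)
    have h13 : pj c (dX Q') = (pj c (dX Q') - dX (pj (c + 1) Q')) + dX (pj (c + 1) Q') := by abel
    rw [h13]
    exact Submodule.add_mem _ h10 h12
  have hRe : R = (R - (E - pj 0 E - pj 3 E - (2 : ZMod 7) • dX Q')) +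
      (E - pj 0 E - pj 3 E - (2 : ZMod 7) • dX Q') := by abel
  have hR0 : pj 0 R ∈ (Wd7 (e - 1) : Submodule (ZMod 7) (Fn7 (7 ^ r) (7 ^ s))) := by
    rw [hRe, map_add (pj 0), map_sub (pj 0) (E - pj 0 E - pj 3 E), map_sub (pj 0) (E - pj 0 E),
      map_sub (pj 0) E, map_smul]
    have h9 := hmono _ (e - 1) (by linarith) (hid 0 e E (by norm_num) hE)
    have h10 := hmono _ (e - 1) (by linarith)
      (hor 0 3 e E (by norm_num) (by norm_num) (by norm_num) hE)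
    have h11 := hcl 0 (Or.inl rfl)
    refine Submodule.add_mem _ (hp 0 _ _ hR) (Submodule.sub_mem _ (Submodule.sub_mem _ ?_ h10)
      (Submodule.smul_mem _ _ h11))
    have h12 : pj 0 E - pj 0 (pj 0 E) = -(pj 0 (pj 0 E) - pj 0 E) := by abel
    rw [h12]
    exact Submodule.neg_mem _ h9
  have hR3 : pj 3 R ∈ (Wd7 (e - 1) : Submodule (ZMod 7) (Fn7 (7 ^ r) (7 ^ s))) := by
    rw [hRe, map_add (pj 3), map_sub (pj 3) (E - pj 0 E - pj 3 E), map_sub (pj 3) (E - pj 0 E),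
      map_sub (pj 3) E, map_smul]
    have h9 := hmono _ (e - 1) (by linarith) (hid 3 e E (by norm_num) hE)
    have h10 := hmono _ (e - 1) (by linarith)
      (hor 3 0 e E (by norm_num) (by norm_num) (by norm_num) hE)
    have h11 := hcl 3 (Or.inr rfl)
    refine Submodule.add_mem _ (hp 3 _ _ hR) (Submodule.sub_mem _ ?_ (Submodule.smul_mem _ _ h11))
    have h12 : pj 3 E - pj 3 (pj 0 E) - pj 3 (pj 3 E) =
        -(pj 3 (pj 3 E) - pj 3 E) - pj 3 (pj 0 E) := by abel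
    rw [h12]
    exact Submodule.sub_mem _ (Submodule.neg_mem _ h9) h10
  have hRm : R ∈ (Wd7 e : Submodule (ZMod 7) (Fn7 (7 ^ r) (7 ^ s))) := by
    rw [hRe]
    refine Submodule.add_mem _ (hmono _ _ (by linarith) hR) (Submodule.sub_mem _
      (Submodule.sub_mem _ (Submodule.sub_mem _ hE (hp 0 _ _ hE)) (hp 3 _ _ hE))
      (Submodule.smul_mem _ _ (hx _ hQ'm)))
  obtain ⟨a', ha', ha''⟩ := hSta r s e R hRm hR0 hR3
  refine ⟨![-P', (-2 : ZMod 7) • Q', a'], ?_, ?_⟩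
  · intro f
    fin_cases f
    · exact Submodule.neg_mem _ hP'm
    · exact Submodule.smul_mem _ _ hQ'm
    · exact hmono _ _ (by linarith) ha'
  · have e0 : (![-P', (-2 : ZMod 7) • Q', a'] : Fin 3 → Fn7 (7 ^ r) (7 ^ s)) 0 = -P' := rfl
    have e1 : (![-P', (-2 : ZMod 7) • Q', a'] : Fin 3 → Fn7 (7 ^ r) (7 ^ s)) 1 =
      (-2 : ZMod 7) • Q' := rfl
    have e2 : (![-P', (-2 : ZMod 7) • Q', a'] : Fin 3 → Fn7 (7 ^ r) (7 ^ s)) 2 = a' := rfl
    have h14 : E - (DfH ![-P', (-2 : ZMod 7) • Q', a'] : Fn7 (7 ^ r) (7 ^ s)) =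
        R + (a' - op7 6 (-1) 2 (-2) a') := by
      rw [DfH_op, e0, e1, e2, hRdef, hD]
      abel
    rw [h14]
    exact ha''

private theorem main_Sur (hLow0 : S7Low0) (hPj : S7Pj) (hBb : S7Bb) (hSta : TSta) (hLwd : TLwd)
    (r s : ℕ) :
    ∀ (n : ℕ) (e : ℤ) (E : Fn7 (7 ^ r) (7 ^ s)), e < n → e < 7 ^ r + 7 ^ s - 2 → E ∈ Wd7 e →
    ∃ F : Fin 3 → Fn7 (7 ^ r) (7 ^ s), (∀ f, F f ∈ Wd7 (e + 1)) ∧
      (DfH F : Fn7 (7 ^ r) (7 ^ s)) = E := by
  have hL := hLow0 r s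
  obtain ⟨_, _, _, _, hmono, _, _, _, _, _, _, _, _, hneg⟩ := hL
  intro n
  induction n with
  | zero =>
    intro e E he _ hE
    have h1 : E = 0 := hneg E (hmono e (-1) (by
      have : e < 0 := by exact_mod_cast he
      omega) hE)
    refine ⟨fun _ => 0, fun _ => Submodule.zero_mem _, ?_⟩
    rw [DfH_op, h1, map_zero, map_zero, map_zero]
    simp
  | succ n ih =>
    intro e E he he2 hE
    obtain ⟨F, hF, hR⟩ := step_Sur hLow0 hPj hBb hSta hLwd r s e E he2 hE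
    obtain ⟨F', hF', hR'⟩ := ih (e - 1) _ (by push_cast at he; linarith)
      (by linarith) hR
    have h6 : e - 1 + 1 = e := by ring
    rw [h6] at hF'
    refine ⟨fun f => F f + F' f, fun f => Submodule.add_mem _ (hF f)
      (hmono _ _ (by linarith) (hF' f)), ?_⟩
    have h7 : (DfH (fun f => F f + F' f) : Fn7 (7 ^ r) (7 ^ s)) =
        (DfH F : Fn7 (7 ^ r) (7 ^ s)) + (DfH F' : Fn7 (7 ^ r) (7 ^ s)) := by
      rw [DfH_op, DfH_op, DfH_op, map_add, map_add, map_add, map_add]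
      abel
    rw [h7, hR']
    abel

theorem hSur (ht : S7Trm) (hl : S7Low0) (hn : S7Nfa) (hp : S7Pj) (hb : S7Bb) (hs : TSta)
    (hw : TLwd) : TSur := by
  have _ := ht
  have _ := hn
  intro r s e E he hE
  exact main_Sur hl hp hb hs hw r s (e + 1).toNat e E (by
    have := Int.self_le_toNat (e + 1)
    linarith) he hE

end Pool.Agent.Helper53.TH7
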